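import Pool.Agent.Q113.XU.Stm

set_option autoImplicit false

/-!
# Project XU: job GAQ
-/

namespace Pool.Agent.Q16.XU

open Finset
open Pool.Agent.Q54.EM Pool.Agent.Q113.XU

/-- the real inequality behind the gap -/
lemma gaq_real (a u q e G V g h l k x w1 W Pk : ℝ) (hk : 0 < k) (hl : 0 < l) (hh : 0 < h)
    (hu : u = x / k) (haq : a = q * (l / k))
    (hlh : l = (1 + e) * h)
    (hG : G = (1 - x / h) ^ 2) (hg : g = h - x) (hV : V ≤ h * (l - h)) (hW : W = w1 * (1 - q))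
    (hw1 : 0 < w1) (hW0 : 0 < W) (hxl : x ≤ l) (hcan : W * g ^ 2 ≤ Pk * (V + g ^ 2))
    (hP : Pk ≤ w1 * (1 - x / l)) (hgpos : 0 < g) (hP0 : 0 ≤ Pk) :
    (u - a) * G ≤ e * (l / k - u) := by
  have hg2 : 0 < g ^ 2 := by positivity
  have hVg : 0 < V + g ^ 2 := by
    by_contra hcon
    push Not at hcon
    nlinarith [mul_pos hW0 hg2]
  have h1 : w1 * ((1 - q) * g ^ 2) ≤ w1 * ((1 - x / l) * (V + g ^ 2)) := by
    calc w1 * ((1 - q) * g ^ 2) = W * g ^ 2 := by rw [hW]; ring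
      _ ≤ Pk * (V + g ^ 2) := hcan
      _ ≤ w1 * (1 - x / l) * (V + g ^ 2) := mul_le_mul_of_nonneg_right hP hVg.le
      _ = _ := by ring
  have h2 : (1 - q) * g ^ 2 ≤ (1 - x / l) * (V + g ^ 2) := le_of_mul_le_mul_left h1 hw1
  have hxl1 : 0 ≤ 1 - x / l := by
    rw [sub_nonneg, div_le_one hl]; exact hxl
  have hV2 : V ≤ e * h ^ 2 := by
    refine hV.trans (le_of_eq ?_)
    rw [hlh]; ring
  have h3 : (1 - q) * g ^ 2 ≤ (1 - x / l) * (e * h ^ 2 + g ^ 2) := by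
    refine h2.trans (mul_le_mul_of_nonneg_left ?_ hxl1)
    linarith
  have hgG : g ^ 2 = G * h ^ 2 := by
    rw [hG, hg]; field_simp
  have h4 : h ^ 2 * ((1 - q) * G) ≤ h ^ 2 * ((1 - x / l) * (e + G)) := by
    calc h ^ 2 * ((1 - q) * G) = (1 - q) * g ^ 2 := by rw [hgG]; ring
      _ ≤ _ := h3
      _ = _ := by rw [hgG]; ring
  have h5 : (1 - q) * G ≤ (1 - x / l) * (e + G) := le_of_mul_le_mul_left h4 (by positivity)
  -- multiply by l/k
  have hxlu : x / l * (l / k) = u := by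
    rw [hu]; field_simp
  have h1t : 0 < l / k := by positivity
  have h6 : (l / k) * ((1 - q) * G) ≤ (l / k) * ((1 - x / l) * (e + G)) :=
    mul_le_mul_of_nonneg_left h5 h1t.le
  have e1 : (l / k) * ((1 - q) * G) = ((l / k) - a) * G := by rw [haq]; ring
  have e2 : (l / k) * ((1 - x / l) * (e + G)) = ((l / k) - u) * (e + G) := by
    rw [← hxlu]; ring
  rw [e1, e2] at h6
  nlinarith

theorem t_GAQ (hVEH : S_VEH) (hCAN : S_CAN) (hPOS : S_POS) : S_NMO → S_GAQ := by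
  intro hNMO ι _ p x k r l hk hRC hO i hxi
  obtain ⟨hN, hxl, hva, hlam⟩ := hNMO ι p x k r l hk hRC hO
  have hkpos : (0 : ℝ) < k := by
    have : 0 < k := by omega
    exact_mod_cast this
  have hl0 := hN.l0
  have hh0 := hN.h0
  have hlh : l = (1 + (l / hh k p x - 1)) * hh k p x := by field_simp; ring
  have hr0 := hRC.1
  have hr1 := hRC.2.1
  have hx0 : 0 ≤ x i := hO.law.nn i
  have hmu1 : mu p x < 1 := by rw [hO.m]; exact hr1
  have hmu0 : 0 < mu p x := by rw [hO.m]; exact hr0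
  have hV := hVEH ι p x k l (by omega) hO.law hmu0 hmu1 hO.kk
  have hC := hCAN ι p x k (by omega) hO.law hmu1 (x i) hx0 hxi
  obtain ⟨hp1, hp2, -, hp4⟩ := hPOS ι p x hO.law
  have hPk : PR p x k (k - x i) ≤ PR p x (k - 1) k * (1 - x i / l) := by
    rw [← hO.kk.2 i]
    have h1 := hp4 (k - 1) (k - x i)
    rwa [Nat.sub_add_cancel (by omega)] at h1
  exact gaq_real (r / k) (x i / k) (r / l) (l / hh k p x - 1) ((1 - x i / hh k p x) ^ 2)
    (VV k p x) (hh k p x - x i) (hh k p x) l k (x i) (PR p x (k - 1) k) (PR p x k k)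
    (PR p x k (k - x i)) hkpos hl0 hh0 rfl (by field_simp) hlh rfl rfl hV
    hN.w1e (hp1 (k - 1) k (by omega) (by omega) hmu1) hN.W0 (hxl i) hC hPk (by linarith) (hp2 k _).1

end Pool.Agent.Q16.XU
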