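import Pool.Agent.Q113.XU.Stm

set_option autoImplicit false

/-!
# Project XU: job Z0L
-/

namespace Pool.Agent.Q16.XU

open Finset
open Pool.Agent.Q54.EM Pool.Agent.Q113.XU

theorem t_Z0L (cs : S_CS) (ser : S_SER) : S_NTL → S_Z0L := by
  intro nt k r l h w1 hN
  rcases lt_or_ge l (k : ℝ) with hlk | hkl
  · exact Or.inl hlk
  right
  obtain ⟨ha0, ha1, hc1, hc2, -⟩ := cs k r hN.k6 hN.rc
  have H := nt k r l h w1 (r / l) (r / k) (k * (1 - r) / r) (1 - l / k) (l / h - 1) (h / r) _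
    hN rfl rfl rfl rfl rfl rfl rfl
  obtain ⟨-, -, hq0, -, -, he, -, -, -, -, -, -, hTA, -⟩ := H
  obtain ⟨a, hadef⟩ : ∃ a, a = r / k := ⟨_, rfl⟩
  obtain ⟨q, hqdef⟩ : ∃ q, q = r / l := ⟨_, rfl⟩
  obtain ⟨c, hcdef⟩ : ∃ c, c = k * (1 - r) / r := ⟨_, rfl⟩
  obtain ⟨e, hedef⟩ : ∃ e, e = l / h - 1 := ⟨_, rfl⟩
  have hk : (0 : ℝ) < k := by
    have := hN.k6
    have h6 : (6 : ℝ) ≤ k := by exact_mod_cast this
    linarith
  have hr : 0 < r := hN.rc.1
  have hqa : q ≤ a := by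
    rw [hqdef, hadef]
    exact div_le_div_of_nonneg_left hr.le hk hkl
  rw [← hadef] at ha0 ha1 hc1 hTA
  rw [← hcdef] at hc1 hc2 hTA
  rw [← hqdef] at hq0 hTA
  rw [← hedef] at he hTA
  have s1 := ser a 0 c ha0 (by linarith) le_rfl one_pos (by linarith) (by linarith)
  have s2 := ser q 0 c hq0 (by linarith) le_rfl one_pos (by linarith) (by linarith)
  have h1 := s1.2.2.2 q hq0 hqa
  have hff0 : 1 ≤ ff q := by
    refine le_trans ?_ s2.1
    have : 0 ≤ q / 2 + q ^ 2 / 3 + q ^ 3 / 4 + q ^ 4 / 5 + q ^ 5 / 6 := by positivity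
    linarith
  have hcq : 0 < c * q := mul_pos (by linarith) hq0
  have h2 : c * q * e * ff q ≤ 0 := by
    have h3 : (1 - c * q * (1 + e)) * ff q = (1 - c * q) * ff q - c * q * e * ff q := by ring
    linarith
  have h4 : c * q * e ≤ c * q * e * ff q := by
    have h5 : 0 ≤ c * q * e := mul_nonneg hcq.le he
    nlinarith
  have he0 : e = 0 := by
    have h6 : c * q * e ≤ 0 := h4.trans h2
    by_contra hne
    have h7 : 0 < e := lt_of_le_of_ne he (Ne.symm hne)
    have := mul_pos hcq h7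
    linarith
  have hlh : l = h := by
    rw [hedef] at he0
    have h8 : l / h = 1 := by linarith
    rwa [div_eq_one_iff_eq hN.h0.ne'] at h8
  have h9 := hN.hk
  have h10 : l = k := le_antisymm (by rw [hlh]; exact h9) hkl
  exact ⟨h10, by rw [← hlh]; exact h10⟩

end Pool.Agent.Q16.XU
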